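import Pool.Agent.Q260.SL.Stm
import Pool.Agent.Q24.DJ.DI

/-! # Project SL, job DIZ: the dictionary -/

set_option autoImplicit false

namespace Pool.Agent.Q237.SL

open Complex Filter Topology Metric Set
open Pool.Agent.Q260.SL
open Pool.Agent.H24R2.JP (HH XX Om)
open Pool.Agent.Q260.DJ (Cl NZ Ok EE)
open Pool.Agent.Q24.DJ (nz_mono ok_near one_le_log log_double log_small ok_const)

/-- zeros of `XX` and of `Zk 0` in the upper half plane -/
theorem xx_iff (h1 : S_ZA) (h6 : S_HM) {z : ℂ} (hz : 0 < z.im) : XX z = 0 ↔ Zk 0 z = 0 := by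
  rw [h1.2.1 z hz]
  unfold Gk
  rw [mul_eq_zero]
  constructor
  · rintro (h | h)
    · exact h
    · exact absurd h (h6.1 z hz).1
  · exact Or.inl

theorem t_DIZ (h1 : S_ZA) (h2 : S_UZ) (h3 : S_DZ) (h4 : S_FL) (h5 : S_CG) (h6 : S_HM) : S_DIZ := by
  intro k ε hε
  obtain ⟨C1, T1, hC1, hT1, h7⟩ := h2 k 0
  obtain ⟨C2, T2, hC2, hT2, h8⟩ := h3 k 0
  obtain ⟨δ, hδd⟩ : ∃ δ : ℝ, δ = min (1 / 2) (ε / (2 * (C1 + C2))) := ⟨_, rfl⟩
  have hδ : 0 < δ := by
    rw [hδd]
    apply lt_min (by norm_num)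
    positivity
  have hδ1 : δ ≤ 1 / 2 := by rw [hδd]; exact min_le_left _ _
  have hδ2 : (C1 + C2) * δ ≤ ε / 2 := by
    have h5 : δ ≤ ε / (2 * (C1 + C2)) := by rw [hδd]; exact min_le_right _ _
    calc (C1 + C2) * δ ≤ (C1 + C2) * (ε / (2 * (C1 + C2))) :=
          mul_le_mul_of_nonneg_left h5 (by linarith)
      _ = ε / 2 := by
          have : C1 + C2 ≠ 0 := by positivity
          field_simp
  obtain ⟨T3, hT3, h9⟩ := ok_const hC1 hδ hδ1
  obtain ⟨T4, hT4, h10⟩ := ok_const hC2 hδ hδ1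
  obtain ⟨T5, hT5, h11⟩ := h4 k
  obtain ⟨C6, T6, hC6, hT6, h12⟩ := (h5 k).1.right (1 / 2 + ε / 2) 2 (by linarith) (by norm_num)
  have hC1δ : 0 < C1 * δ := by positivity
  have hC2δ : 0 < C2 * δ := by positivity
  have hdiv : 0 < C1 / δ := by positivity
  refine ⟨C1 / δ + C2, max (max (max T1 T2) (max T3 T4)) (max (max T5 T6) (2 * C2)), by linarith,
    hT1.trans ((le_max_left _ _).trans ((le_max_left _ _).trans (le_max_left _ _))), ?_, ?_⟩
  · intro z σ hz hT hσ hσz
    have hT' := (le_max_left _ _).trans hT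
    have a1 : T1 ≤ z.im := ((le_max_left _ _).trans (le_max_left _ _)).trans hT'
    have a3 : T3 ≤ z.im := ((le_max_left _ _).trans (le_max_right _ _)).trans hT'
    have hre := Pool.Agent.H24R2.JP.Zer.re_le z hz
    by_contra hcon
    push Not at hcon
    have hnz : NZ (Zk k) σ z.im (C1 / δ) := by
      intro w hw1 hw2 hw3 hw0
      have := hcon w hw0 hw1 hw2
      linarith
    have h13 := h7 z.im σ δ a1 hσ (by nlinarith) (h9 z.im a3) hnz z (by nlinarith) (by linarith)
      (by simp)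
    exact h13 ((xx_iff h1 h6 (by linarith)).1 hz)
  · intro z σ hz hT hσ hσz
    have hT' := (le_max_left _ _).trans hT
    have hT'' := (le_max_right _ _).trans hT
    have a2 : T2 ≤ z.im := ((le_max_right _ _).trans (le_max_left _ _)).trans hT'
    have a4 : T4 ≤ z.im := ((le_max_right _ _).trans (le_max_right _ _)).trans hT'
    have a5 : T5 ≤ z.im := ((le_max_left _ _).trans (le_max_left _ _)).trans hT''
    have a6 : T6 ≤ z.im := ((le_max_right _ _).trans (le_max_left _ _)).trans hT''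
    have a7 : 2 * C2 ≤ z.im := (le_max_right _ _).trans hT''
    have hre1 : z.re < 1 := by
      by_contra hc
      push Not at hc
      exact h11 z hc a5 hz
    have hre2 : z.re < 1 / 2 + ε / 2 := by
      by_contra hc
      push Not at hc
      apply (h12 z hc (by linarith) a6).1
      unfold Gk
      rw [hz, zero_mul]
    by_contra hcon
    push Not at hcon
    have hnz : NZ (Zk 0) σ z.im C2 := by
      intro w hw1 hw2 hw3 hw0
      have hw4 : 0 < w.im := by linarith [(abs_le.1 hw3).1]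
      have := hcon w ((xx_iff h1 h6 hw4).2 hw0) hw1
      linarith
    have h13 := h8 z.im σ δ a2 hσ (by nlinarith) (h10 z.im a4) hnz z (by nlinarith) (by linarith)
      (by simp)
    exact h13 hz

end Pool.Agent.Q237.SL
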