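import Pool.Agent.Q260.SL.Stm
import Pool.Agent.Q285.DJ.GL

/-! # Project SL, job GZ: the global form -/

set_option autoImplicit false

namespace Pool.Agent.Q237.SL

open Complex Filter Topology Metric Set
open Pool.Agent.Q260.SL
open Pool.Agent.H24R2.JP (HH XX Om)
open Pool.Agent.H24R2.JP.B1h (XX_diff XX_conj)
open Pool.Agent.H24R2.JP.Zer (XX_eq completed_zero abs_re_le)
open Pool.Agent.Q285.DJ (fin_iff fin_shift zeta_iff)

/-- the zeros of `Zk k` far up -/
theorem left_iff (h1 : S_ZA) (k : ℕ) (θ ε : ℝ) :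
    (∃ T : ℝ, ∀ s : ℂ, T ≤ |s.im| → s.re < 1 - θ - ε → iteratedDeriv k riemannZeta s ≠ 0) ↔
    ∃ T : ℝ, ∀ z : ℂ, T ≤ z.im → θ - 1 / 2 + ε < z.re → Zk k z ≠ 0 := by
  have hh : ((1 / 2 : ℂ)).re = 1 / 2 := by norm_num
  have hi : ((1 / 2 : ℂ)).im = 0 := by norm_num
  constructor
  · rintro ⟨T, hT⟩
    refine ⟨max T 1, fun z hz1 hz2 hz3 => ?_⟩
    have h2 : 0 < z.im := lt_of_lt_of_le one_pos ((le_max_right _ _).trans hz1)
    have h3 := (h1.1 k z h2).2.2
    rw [hz3] at h3
    have h4 : iteratedDeriv k riemannZeta (1 / 2 - z) = 0 := by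
      rcases mul_eq_zero.1 h3.symm with h | h
      · exact absurd h (pow_ne_zero _ (by norm_num))
      · exact h
    refine hT (1 / 2 - z) ?_ ?_ h4
    · rw [sub_im, hi, zero_sub, abs_neg, abs_of_pos h2]
      exact (le_max_left _ _).trans hz1
    · rw [sub_re, hh]
      linarith
  · rintro ⟨T, hT⟩
    refine ⟨max T 1, fun s hs1 hs2 hs3 => ?_⟩
    have h0 : 0 < |s.im| := lt_of_lt_of_le one_pos ((le_max_right _ _).trans hs1)
    have key : ∀ w : ℂ, w.im < 0 → |w.im| = |s.im| → w.re = s.re →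
        iteratedDeriv k riemannZeta w = 0 → False := by
      intro w hw1 hw2 hw3 hw4
      have h2 : 0 < (1 / 2 - w : ℂ).im := by
        rw [sub_im, hi]
        linarith
      have h3 := (h1.1 k (1 / 2 - w) h2).2.2
      rw [show (1 / 2 - (1 / 2 - w) : ℂ) = w by ring, hw4, mul_zero] at h3
      refine hT (1 / 2 - w) ?_ ?_ h3
      · rw [sub_im, hi, zero_sub]
        rw [abs_of_neg hw1] at hw2
        rw [hw2]
        exact (le_max_left _ _).trans hs1
      · rw [sub_re, hh, hw3]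
        linarith
    rcases lt_or_ge s.im 0 with h | h
    · exact key s h rfl rfl hs3
    · have h' : 0 < s.im := by rwa [abs_of_nonneg h] at h0
      have hs4 : s ≠ 1 := by
        rintro rfl
        rw [one_im] at h'
        exact lt_irrefl _ h'
      refine key ((starRingEnd ℂ) s) ?_ ?_ ?_ ?_
      · rw [conj_im]; linarith
      · rw [conj_im, abs_neg]
      · rw [conj_re]
      · rw [h1.2.2 k s hs4, hs3, map_zero]

/-- the zeros of zeta to the right, far up -/
theorem right_iff {θ ε : ℝ} (hθ : 1 / 2 ≤ θ) (hε : 0 < ε) :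
    (∃ T : ℝ, ∀ s : ℂ, T ≤ |s.im| → θ + ε < s.re → riemannZeta s ≠ 0) ↔
    ∃ T : ℝ, ∀ z : ℂ, XX z = 0 → T ≤ z.im → z.re ≤ θ + ε - 1 / 2 := by
  have hh : ((1 / 2 : ℂ)).re = 1 / 2 := by norm_num
  have hi : ((1 / 2 : ℂ)).im = 0 := by norm_num
  constructor
  · rintro ⟨T, hT⟩
    refine ⟨T, fun z hz1 hz2 => ?_⟩
    by_contra hcon
    push Not at hcon
    have hre : (z + 1 / 2 : ℂ).re = z.re + 1 / 2 := by rw [add_re, hh]
    refine hT (z + 1 / 2) ?_ (by rw [hre]; linarith) ?_
    · rw [add_im, hi, add_zero]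
      exact hz2.trans (le_abs_self _)
    · rw [zeta_iff (by rw [hre]; linarith), add_sub_cancel_right]
      exact hz1
  · rintro ⟨T, hT⟩
    refine ⟨T, fun s hs1 hs2 hs3 => ?_⟩
    have h3 := (zeta_iff (by linarith)).1 hs3
    have hre : (s - 1 / 2 : ℂ).re = s.re - 1 / 2 := by rw [sub_re, hh]
    have him : (s - 1 / 2 : ℂ).im = s.im := by rw [sub_im, hi, sub_zero]
    rcases le_total 0 s.im with h | h
    · have h4 := hT _ h3 (by rw [him]; rwa [abs_of_nonneg h] at hs1)
      rw [hre] at h4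
      linarith
    · have h5 : XX ((starRingEnd ℂ) (s - 1 / 2)) = 0 := by rw [XX_conj, h3, map_zero]
      have h4 := hT _ h5 (by rw [conj_im, him]; rwa [abs_of_nonpos h] at hs1)
      rw [conj_re, hre] at h4
      linarith

theorem t_GZ (h1 : S_ZA) (h2 : S_DIZ) : S_GZ := by
  intro k θ hθ
  constructor
  · constructor
    · intro h ε hε
      rw [right_iff hθ hε]
      obtain ⟨T, hT⟩ := (left_iff h1 k θ (ε / 3)).1 (h (ε / 3) (by linarith))
      obtain ⟨C, T0, hC, hT0, d1, -⟩ := h2 k (ε / 3) (by linarith)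
      refine ⟨max T0 (T + C), fun z hz hzT => ?_⟩
      by_contra hcon
      push Not at hcon
      obtain ⟨w, hw1, hw2, -, hw3⟩ := d1 z (θ - 1 / 2 + ε / 3) hz ((le_max_left _ _).trans hzT)
        (by linarith) (by linarith)
      have h4 := (le_max_right _ _).trans hzT
      have h5 := (abs_le.1 hw3).1
      exact hT w (by linarith) hw2 hw1
    · intro h ε hε
      rw [left_iff h1 k θ ε]
      obtain ⟨T, hT⟩ := (right_iff hθ (by linarith)).1 (h (ε / 3) (by linarith))
      obtain ⟨C, T0, hC, hT0, -, d2⟩ := h2 k (ε / 3) (by linarith)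
      refine ⟨max T0 (T + C), fun z hzT hz2 hz => ?_⟩
      obtain ⟨w, hw1, hw2, hw3⟩ := d2 z (θ - 1 / 2 + ε / 3) hz ((le_max_left _ _).trans hzT)
        (by linarith) (by linarith)
      have h4 := (le_max_right _ _).trans hzT
      have h5 := (abs_le.1 hw3).1
      have h6 := hT w hw1 (by linarith)
      linarith
  · have eB : ∀ ε : ℝ, 0 < ε → ({s : ℂ | θ + ε < s.re ∧ riemannZeta s = 0}.Finite ↔
        ∃ T : ℝ, ∀ z : ℂ, XX z = 0 → T ≤ z.im → z.re ≤ θ + ε - 1 / 2) := by
      intro ε hε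
      rw [fin_shift (G := XX), fin_iff XX_diff XX_conj abs_re_le]
      intro s hs
      exact zeta_iff (by linarith)
    constructor
    · intro h ε hε
      rw [eB ε hε, ← right_iff hθ hε]
      exact h ε hε
    · intro h ε hε
      rw [right_iff hθ hε, ← eB ε hε]
      exact h ε hε

end Pool.Agent.Q237.SL
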