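import Pool.Agent.Q260.SL.Stm
import Pool.Agent.Q24.DJ.Com

/-! # Project SL, job UZ: from `Zk k` back to `Zk 0` -/

set_option autoImplicit false

namespace Pool.Agent.Q237.SL

open Complex Filter Topology Metric Set
open Pool.Agent.Q260.SL
open Pool.Agent.H24R2.JP (HH XX Om)
open Pool.Agent.Q260.DJ (Cl NZ Ok EE)
open Pool.Agent.Q24.DJ (nz_mono ok_near one_le_log log_double log_small)

theorem t_UZ (h1 : S_KL) (h2 : S_BZ) : S_UZ := by
  intro k X
  obtain ⟨C1, T1, hC1, hT1, h3⟩ := h1 k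
  choose CB TB hCB hTB h4 using h2
  obtain ⟨B, hB0, hB⟩ : ∃ B : ℝ, 0 ≤ B ∧ ∀ j : ℕ, j < k → CB j ≤ B ∧ TB j ≤ B := by
    refine ⟨∑ j ∈ Finset.range k, (CB j + TB j), ?_, ?_⟩
    · apply Finset.sum_nonneg
      intro j _
      linarith [hCB j, hTB j]
    · intro j hj
      have hs : CB j + TB j ≤ ∑ j ∈ Finset.range k, (CB j + TB j) :=
        Finset.single_le_sum (f := fun j => CB j + TB j) (fun i _ => by linarith [hCB i, hTB i])
          (Finset.mem_range.2 hj)
      constructor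
      · linarith [hTB j]
      · linarith [hCB j]
  obtain ⟨Y, hY⟩ : ∃ Y : ℝ, Y = |X| + 4 * k := ⟨_, rfl⟩
  have hk0 : (0 : ℝ) ≤ k := Nat.cast_nonneg k
  have hY0 : 0 ≤ Y := by rw [hY]; positivity
  have hXY : |X| ≤ Y := by rw [hY]; linarith
  refine ⟨2 * C1 + 2 * B + Y + 16 * k + 24, max (max 6 (2 * T1)) (max (2 * B) (2 * Y)),
    by linarith, by linarith [(le_max_left (6 : ℝ) (2 * T1)).trans (le_max_left _ (max (2 * B) (2 * Y)))], ?_⟩
  intro T θ δ hT hθ hθ1 hok hnz
  obtain ⟨C, hC⟩ : ∃ C : ℝ, C = 2 * C1 + 2 * B + Y + 16 * k + 24 := ⟨_, rfl⟩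
  rw [← hC] at hθ1 hok hnz ⊢
  have a1 : 6 ≤ T := ((le_max_left _ _).trans (le_max_left _ _)).trans hT
  have a2 : 2 * T1 ≤ T := ((le_max_right _ _).trans (le_max_left _ _)).trans hT
  have a3 : 2 * B ≤ T := ((le_max_left _ _).trans (le_max_right _ _)).trans hT
  have a4 : 2 * Y ≤ T := ((le_max_right _ _).trans (le_max_right _ _)).trans hT
  have hδ := hok.1
  have hδ2 := hok.2.1
  have hpos1 : 0 ≤ (2 * C1 + 2 * B + Y) * δ := by positivity
  have hCδ : C * δ = (2 * C1 + 2 * B + Y) * δ + 16 * k * δ + 24 * δ := by rw [hC]; ring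
  have hkδ : 0 ≤ (k : ℝ) * δ := by positivity
  -- `Y ≤ Y / δ`
  have hYδ : Y ≤ Y / δ := by
    rw [le_div_iff₀ hδ]
    nlinarith
  have hwin : Y + C1 / δ ≤ C / δ := by
    have e1 : (Y + C1) / δ ≤ C / δ := by
      apply div_le_div_of_nonneg_right _ hδ.le
      rw [hC]; linarith
    rw [add_div] at e1
    linarith
  have hwin2 : Y ≤ C / δ := by
    have : 0 ≤ C1 / δ := by positivity
    linarith
  -- the bound for `Zk 0`
  have hZ : ∀ T' : ℝ, |T' - T| ≤ Y → ∀ z : ℂ, |z.im - T'| ≤ 4 → θ + δ ≤ z.re → z.re ≤ 2 →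
      ‖Zk 0 z‖ ≤ Real.exp (Real.log T' * (z.re + 3 * δ)) := by
    intro T' hT'
    have b1 : T / 2 ≤ T' := by linarith [(abs_le.1 hT').1]
    refine h3 T' θ δ (by linarith) hθ (by nlinarith) (ok_near hC1 (by rw [hC]; linarith) a1 b1 hok)
      (nz_mono hnz le_rfl ?_)
    linarith
  -- going back
  have hback : ∀ n : ℕ, n ≤ k → NZ (Zk (k - n)) (θ + 16 * n * δ) T (Y - 4 * n) := by
    intro n
    induction n with
    | zero =>
      intro _
      have e : NZ (Zk k) θ T Y := nz_mono hnz le_rfl (by rw [sub_self, abs_zero, zero_add]; exact hwin2)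
      simpa using e
    | succ n ih =>
      intro hn
      have ih' := ih (by omega)
      obtain ⟨j, hj⟩ : ∃ j : ℕ, k = j + (n + 1) := ⟨k - (n + 1), by omega⟩
      have e1 : k - (n + 1) = j := by omega
      have e2 : k - n = j + 1 := by omega
      rw [e2] at ih'
      rw [e1]
      have hnk : (n : ℝ) + 1 ≤ k := by exact_mod_cast hn
      have hnδ : ((n : ℝ) + 1) * δ ≤ k * δ := mul_le_mul_of_nonneg_right hnk hδ.le
      have hn0 : (0 : ℝ) ≤ n := Nat.cast_nonneg n
      have hn0δ : 0 ≤ (n : ℝ) * δ := by positivity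
      intro z hz1 hz2 hz3
      push_cast at hz1 hz3
      have c1 : |z.im - T| ≤ Y := by linarith
      have b1 : T / 2 ≤ z.im := by linarith [(abs_le.1 c1).1]
      have c2 := hB j (by omega)
      refine h4 j z.im (θ + 16 * n * δ) δ (by linarith) (by linarith) (by linarith)
        (ok_near (hCB j) (by rw [hC]; linarith) a1 b1 hok) (nz_mono ih' le_rfl (by linarith)) ?_ z rfl
        (by linarith) hz2
      intro w hw1 hw2 hw3
      exact hZ z.im c1 w (by linarith) (by linarith) (by linarith)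
  have h5 := hback k le_rfl
  rw [Nat.sub_self] at h5
  refine nz_mono h5 (by linarith) ?_
  rw [sub_self, abs_zero, zero_add, hY]
  linarith [le_abs_self X]

end Pool.Agent.Q237.SL
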